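import Pool.Agent.H59.L.S8.W695.KH.Defs

set_option autoImplicit false

namespace Pool.Agent.W12.KH

open Pool.Agent.W695.KH
open MeasureTheory Set Filter Topology
open scoped ENNReal InnerProductSpace

variable {κ : Type} [Fintype κ]

theorem gauss_int (b : ℝ) (hb : 0 < b) :
    Integrable fun y : Eu κ => Real.exp (-b * ‖y‖ ^ 2) := by
  have hb' : 0 < ((b : ℂ)).re := by simpa using hb
  have h := (GaussianFourier.integrable_cexp_neg_mul_sq_norm_add (V := EuclideanSpace ℝ κ) hb' 0
    (0 : EuclideanSpace ℝ κ)).norm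
  refine h.congr (Filter.Eventually.of_forall fun y => ?_)
  show ‖Complex.exp _‖ = _
  rw [Complex.norm_exp]
  congr 1
  rw [zero_mul, add_zero, ← Complex.ofReal_pow, ← Complex.ofReal_neg, ← Complex.ofReal_mul,
    Complex.ofReal_re]

theorem gauss_int2 (b : ℝ) (hb : 0 < b) :
    Integrable fun y : Eu κ => (1 + ‖y‖ ^ 2) * Real.exp (-b * ‖y‖ ^ 2) := by
  refine ((gauss_int (κ := κ) (b / 2) (by positivity)).const_mul (1 + 2 / b)).mono'
    (by fun_prop) (Filter.Eventually.of_forall fun y => ?_)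
  rw [Real.norm_of_nonneg (by positivity)]
  have h1 : 1 + ‖y‖ ^ 2 ≤ (1 + 2 / b) * Real.exp (b / 2 * ‖y‖ ^ 2) := by
    have h2 : b / 2 * ‖y‖ ^ 2 + 1 ≤ Real.exp (b / 2 * ‖y‖ ^ 2) := Real.add_one_le_exp _
    have h3 : 1 + ‖y‖ ^ 2 ≤ (1 + 2 / b) * (b / 2 * ‖y‖ ^ 2 + 1) := by
      have e : (1 + 2 / b) * (b / 2 * ‖y‖ ^ 2 + 1) = b / 2 * ‖y‖ ^ 2 + ‖y‖ ^ 2 + 1 + 2 / b := by
        field_simp
        ring
      rw [e]
      have h4 : 0 ≤ b / 2 * ‖y‖ ^ 2 := by positivity
      have h5 : 0 < 2 / b := by positivity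
      linarith
    exact h3.trans (mul_le_mul_of_nonneg_left h2 (by positivity))
  calc (1 + ‖y‖ ^ 2) * Real.exp (-b * ‖y‖ ^ 2)
      ≤ ((1 + 2 / b) * Real.exp (b / 2 * ‖y‖ ^ 2)) * Real.exp (-b * ‖y‖ ^ 2) :=
        mul_le_mul_of_nonneg_right h1 (Real.exp_pos _).le
    _ = (1 + 2 / b) * Real.exp (-(b / 2) * ‖y‖ ^ 2) := by
        rw [mul_assoc, ← Real.exp_add]
        congr 2
        ring

/-- the unnormalised weight -/
noncomputable def wt (D : Set (Eu κ)) (A : ℝ) (x : Eu κ) : ℝ :=
  Real.exp (-(A / 2 * Metric.infDist x D ^ 2))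

lemma wt_cont (D : Set (Eu κ)) (A : ℝ) : Continuous (wt D A) := by
  unfold wt
  have := Metric.continuous_infDist_pt D
  fun_prop

lemma wt_pos (D : Set (Eu κ)) (A : ℝ) (x : Eu κ) : 0 < wt D A x := Real.exp_pos _

lemma wt_le {D : Set (Eu κ)} (hne : D.Nonempty) {R : ℝ} (hR : ∀ y ∈ D, ‖y‖ ≤ R) {A : ℝ}
    (hA : 0 < A) (x : Eu κ) :
    wt D A x ≤ Real.exp (A / 2 * R ^ 2) * Real.exp (-(A / 4) * ‖x‖ ^ 2) := by
  unfold wt
  rw [← Real.exp_add]
  apply Real.exp_le_exp.mpr
  have h1 : ‖x‖ - R ≤ Metric.infDist x D := by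
    rw [Metric.le_infDist hne]
    intro y hy
    have h2 : ‖x‖ ≤ ‖x - y‖ + ‖y‖ := by
      have := norm_add_le (x - y) y
      rwa [sub_add_cancel] at this
    rw [dist_eq_norm]
    linarith [hR y hy]
  have h3 : 0 ≤ Metric.infDist x D := Metric.infDist_nonneg
  have h4 : ‖x‖ ^ 2 ≤ 2 * Metric.infDist x D ^ 2 + 2 * R ^ 2 := by
    have h5 : ‖x‖ ≤ Metric.infDist x D + R := by linarith
    have h6 : ‖x‖ ^ 2 ≤ (Metric.infDist x D + R) ^ 2 := pow_le_pow_left₀ (norm_nonneg _) h5 2
    nlinarith [sq_nonneg (Metric.infDist x D - R)]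
  nlinarith

lemma exR {D : Set (Eu κ)} (hD : IsCompact D) : ∃ R : ℝ, ∀ y ∈ D, ‖y‖ ≤ R :=
  hD.isBounded.exists_norm_le

/-- integrability for every `A > 0` -/
lemma wt_int {D : Set (Eu κ)} (hD : IsCompact D) (hne : D.Nonempty) {A : ℝ} (hA : 0 < A)
    {g : Eu κ → ℝ} {B : ℝ} (hg : Continuous g) (hB : ∀ x, |g x| ≤ B * (1 + ‖x‖ ^ 2)) :
    Integrable fun x => g x * wt D A x := by
  obtain ⟨R, hR⟩ := exR hD
  refine ((gauss_int2 (κ := κ) (A / 4) (by positivity)).const_mul
    (B * Real.exp (A / 2 * R ^ 2))).mono' (hg.mul (wt_cont D A)).aestronglyMeasurable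
    (Filter.Eventually.of_forall fun x => ?_)
  rw [norm_mul, Real.norm_eq_abs, Real.norm_of_nonneg (wt_pos D A x).le]
  calc |g x| * wt D A x ≤ (B * (1 + ‖x‖ ^ 2)) *
        (Real.exp (A / 2 * R ^ 2) * Real.exp (-(A / 4) * ‖x‖ ^ 2)) :=
        mul_le_mul (hB x) (wt_le hne hR hA x) (wt_pos D A x).le ((abs_nonneg _).trans (hB x))
    _ = _ := by ring

lemma tend {D : Set (Eu κ)} (hD : IsCompact D) (hne : D.Nonempty)
    {g : Eu κ → ℝ} {B : ℝ} (hg : Continuous g) (hB : ∀ x, |g x| ≤ B * (1 + ‖x‖ ^ 2)) :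
    Tendsto (fun A : ℝ => ∫ x, g x * wt D A x) atTop (𝓝 (∫ x in D, g x)) := by
  rw [← integral_indicator hD.measurableSet]
  obtain ⟨R, hR⟩ := exR hD
  apply tendsto_integral_filter_of_dominated_convergence
    (fun x => (B * Real.exp (1 / 2 * R ^ 2)) * ((1 + ‖x‖ ^ 2) * Real.exp (-(1 / 4) * ‖x‖ ^ 2)))
  · exact Eventually.of_forall fun A => (hg.mul (wt_cont D A)).aestronglyMeasurable
  · filter_upwards [eventually_ge_atTop (1 : ℝ)] with A hA
    refine Filter.Eventually.of_forall fun x => ?_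
    rw [norm_mul, Real.norm_eq_abs, Real.norm_of_nonneg (wt_pos D A x).le]
    have h1 : wt D A x ≤ wt D 1 x := by
      unfold wt
      apply Real.exp_le_exp.mpr
      have : 0 ≤ Metric.infDist x D ^ 2 := by positivity
      nlinarith
    calc |g x| * wt D A x ≤ (B * (1 + ‖x‖ ^ 2)) *
          (Real.exp (1 / 2 * R ^ 2) * Real.exp (-(1 / 4) * ‖x‖ ^ 2)) :=
          mul_le_mul (hB x) (h1.trans (wt_le hne hR one_pos x)) (wt_pos D A x).le
            ((abs_nonneg _).trans (hB x))
      _ = _ := by ring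
  · exact (gauss_int2 (κ := κ) (1 / 4) (by norm_num)).const_mul _
  · refine Filter.Eventually.of_forall fun x => ?_
    by_cases hx : x ∈ D
    · rw [indicator_of_mem hx]
      have h0 : Metric.infDist x D = 0 := Metric.infDist_zero_of_mem hx
      have : ∀ A : ℝ, g x * wt D A x = g x := by
        intro A
        unfold wt
        rw [h0]
        simp
      simp only [this]
      exact tendsto_const_nhds
    · rw [indicator_of_notMem hx]
      have h0 : 0 < Metric.infDist x D :=
        (hD.isClosed.notMem_iff_infDist_pos hne).mp hx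
      have h1 : Tendsto (fun A : ℝ => wt D A x) atTop (𝓝 0) := by
        unfold wt
        apply Real.tendsto_exp_neg_atTop_nhds_zero.comp
        have : (fun A : ℝ => A / 2 * Metric.infDist x D ^ 2) =
            fun A : ℝ => A * (1 / 2 * Metric.infDist x D ^ 2) := by
          ext A; ring
        rw [this]
        exact tendsto_id.atTop_mul_const (by positivity)
      have h2 := h1.const_mul (g x)
      rwa [mul_zero] at h2

lemma EU_eq {D : Set (Eu κ)} (hD : IsCompact D) (hne : D.Nonempty) {A : ℝ} (hA : 0 < A)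
    (g : Eu κ → ℝ) :
    EU (Uu D A) g = (∫ x, g x * wt D A x) / ∫ x, wt D A x := by
  unfold EU Uu
  have hZ : 0 < ∫ x, wt D A x := by
    have hi : Integrable (wt D A) := by
      have := wt_int (κ := κ) hD hne hA (g := fun _ => 1) (B := 1) continuous_const
        (fun x => by rw [abs_one, one_mul]; nlinarith [sq_nonneg ‖x‖])
      simpa using this
    exact integral_exp_pos hi
  have hZ' : (∫ y : Eu κ, Real.exp (-(A / 2 * Metric.infDist y D ^ 2))) = ∫ x, wt D A x := rfl
  rw [hZ']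
  rw [← integral_div]
  congr 1
  ext x
  rw [neg_add, Real.exp_add, Real.exp_neg (Real.log _), Real.exp_log hZ]
  unfold wt
  ring

theorem t_lim : S_lim := by
  intro κ _ D hD _ hvol g B hg hB
  have hne : D.Nonempty := by
    rw [nonempty_iff_ne_empty]
    intro h
    rw [h, measure_empty] at hvol
    exact lt_irrefl _ hvol
  have h1 := tend hD hne hg hB
  have h2 := tend (κ := κ) hD hne (g := fun _ => 1) (B := 1) continuous_const
        (fun x => by rw [abs_one, one_mul]; nlinarith [sq_nonneg ‖x‖])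
  have hfin : volume D ≠ ⊤ := hD.measure_lt_top.ne
  have h3 : (∫ _x in D, (1 : ℝ)) = (volume D).toReal := by
    simp [Measure.real]
  rw [h3] at h2
  have hpos : 0 < (volume D).toReal := ENNReal.toReal_pos hvol.ne' hfin
  have h4 := h1.div h2 hpos.ne'
  refine h4.congr' ?_
  filter_upwards [eventually_gt_atTop (0 : ℝ)] with A hA
  rw [EU_eq hD hne hA]
  simp only [Pi.div_apply, one_mul]

theorem t_cov (h : S_lim) : S_cov := by
  intro κ _ D hD hDc hvol s η hη hs
  have hne : D.Nonempty := by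
    rw [nonempty_iff_ne_empty]
    intro h
    rw [h, measure_empty] at hvol
    exact lt_irrefl _ hvol
  have hcont : ∀ i j : κ, Continuous fun x : Eu κ => x i * x j := by
    intro i j; fun_prop
  have hcoord : ∀ (i : κ) (x : Eu κ), |x i| ≤ ‖x‖ := by
    intro i x
    have := EuclideanSpace.norm_eq x
    rw [this]
    apply Real.abs_le_sqrt
    have h1 : x i ^ 2 = ‖x i‖ ^ 2 := by rw [Real.norm_eq_abs, sq_abs]
    rw [h1]
    exact Finset.single_le_sum (f := fun i => ‖x i‖ ^ 2) (fun _ _ => by positivity)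
      (Finset.mem_univ i)
  have hbd : ∀ (i j : κ) (x : Eu κ), |x i * x j| ≤ 1 * (1 + ‖x‖ ^ 2) := by
    intro i j x
    rw [abs_mul, one_mul]
    have h1 := hcoord i x
    have h2 := hcoord j x
    have : |x i| * |x j| ≤ ‖x‖ * ‖x‖ := mul_le_mul h1 h2 (abs_nonneg _) (norm_nonneg _)
    nlinarith
  set n : ℝ := (Fintype.card κ : ℝ) with hn
  have hn0 : 0 ≤ n := by positivity
  set ε : ℝ := η / (n ^ 2 + 1) with hε
  have hε0 : 0 < ε := by positivity
  have hev : ∀ᶠ A : ℝ in atTop, ∀ i j : κ,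
      |EU (Uu D A) (fun x => x i * x j) - EV D (fun x => x i * x j)| ≤ ε := by
    rw [eventually_all]
    intro i
    rw [eventually_all]
    intro j
    have h1 := h κ D hD hDc hvol (fun x => x i * x j) 1 (hcont i j) (hbd i j)
    have h2 := Metric.tendsto_nhds.mp h1 ε hε0
    filter_upwards [h2] with A hA
    rw [Real.dist_eq] at hA
    exact hA.le
  have hinner : ∀ θ x : Eu κ, ⟪θ, x⟫_ℝ ^ 2 = ∑ i, ∑ j, (θ i * θ j) * (x i * x j) := by
    intro θ x
    rw [PiLp.inner_apply, sq, Finset.sum_mul_sum]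
    refine Finset.sum_congr rfl fun i _ => Finset.sum_congr rfl fun j _ => ?_
    simp only [RCLike.inner_apply, conj_trivial]
    ring
  filter_upwards [hev, eventually_gt_atTop (0 : ℝ)] with A hA hA0 θ
  have hEUlin : EU (Uu D A) (fun x => ⟪θ, x⟫_ℝ ^ 2) =
      ∑ i, ∑ j, (θ i * θ j) * EU (Uu D A) (fun x => x i * x j) := by
    simp only [EU_eq hD hne hA0, hinner]
    have hint : ∀ i j : κ, Integrable fun x : Eu κ => (x i * x j) * wt D A x :=
      fun i j => wt_int hD hne hA0 (hcont i j) (hbd i j)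
    have h1 : (∫ x, (∑ i, ∑ j, (θ i * θ j) * (x i * x j)) * wt D A x) =
        ∑ i, ∑ j, (θ i * θ j) * ∫ x : Eu κ, (x i * x j) * wt D A x := by
      simp only [Finset.sum_mul]
      rw [integral_finsetSum]
      · refine Finset.sum_congr rfl fun i _ => ?_
        rw [integral_finsetSum]
        · refine Finset.sum_congr rfl fun j _ => ?_
          rw [← integral_const_mul]
          congr 1
          ext x
          ring
        · intro j _
          have := (hint i j).const_mul (θ i * θ j)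
          simpa only [mul_assoc] using this
      · intro i _
        apply integrable_finsetSum
        intro j _
        have := (hint i j).const_mul (θ i * θ j)
        simpa only [mul_assoc] using this
    rw [h1, Finset.sum_div]
    refine Finset.sum_congr rfl fun i _ => ?_
    rw [Finset.sum_div]
    refine Finset.sum_congr rfl fun j _ => ?_
    ring
  have hEVlin : EV D (fun x => ⟪θ, x⟫_ℝ ^ 2) =
      ∑ i, ∑ j, (θ i * θ j) * EV D (fun x => x i * x j) := by
    unfold EV
    simp only [hinner]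
    have hint : ∀ i j : κ, IntegrableOn (fun x : Eu κ => x i * x j) D :=
      fun i j => (hcont i j).continuousOn.integrableOn_compact hD
    have h1 : (∫ x in D, (∑ i, ∑ j, (θ i * θ j) * (x i * x j))) =
        ∑ i, ∑ j, (θ i * θ j) * ∫ x in D, (x i * x j) := by
      rw [integral_finsetSum]
      · refine Finset.sum_congr rfl fun i _ => ?_
        rw [integral_finsetSum]
        · refine Finset.sum_congr rfl fun j _ => ?_
          rw [← integral_const_mul]
        · intro j _
          exact (hint i j).const_mul (θ i * θ j)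
      · intro i _
        apply integrable_finsetSum
        intro j _
        exact (hint i j).const_mul (θ i * θ j)
    rw [h1, Finset.sum_div]
    refine Finset.sum_congr rfl fun i _ => ?_
    rw [Finset.sum_div]
    refine Finset.sum_congr rfl fun j _ => ?_
    ring
  have hdiff : EU (Uu D A) (fun x => ⟪θ, x⟫_ℝ ^ 2) - EV D (fun x => ⟪θ, x⟫_ℝ ^ 2) ≤
      η * ‖θ‖ ^ 2 := by
    rw [hEUlin, hEVlin, ← Finset.sum_sub_distrib]
    have h1 : ∀ i ∈ (Finset.univ : Finset κ),
        (∑ j, (θ i * θ j) * EU (Uu D A) (fun x => x i * x j)) -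
        (∑ j, (θ i * θ j) * EV D (fun x => x i * x j)) ≤ ∑ _j : κ, ‖θ‖ ^ 2 * ε := by
      intro i _
      rw [← Finset.sum_sub_distrib]
      apply Finset.sum_le_sum
      intro j _
      rw [← mul_sub]
      refine (le_abs_self _).trans ?_
      rw [abs_mul, abs_mul]
      apply mul_le_mul _ (hA i j) (abs_nonneg _) (by positivity)
      rw [sq]
      exact mul_le_mul (hcoord i θ) (hcoord j θ) (abs_nonneg _) (norm_nonneg _)
    refine (Finset.sum_le_sum h1).trans ?_
    simp only [Finset.sum_const, Finset.card_univ, nsmul_eq_mul]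
    have h2 : n * (n * (‖θ‖ ^ 2 * ε)) ≤ η * ‖θ‖ ^ 2 := by
      rw [hε]
      have h3 : n * (n * (‖θ‖ ^ 2 * (η / (n ^ 2 + 1)))) = (η * ‖θ‖ ^ 2) * (n ^ 2 / (n ^ 2 + 1)) := by
        ring
      rw [h3]
      have h4 : n ^ 2 / (n ^ 2 + 1) ≤ 1 := by
        rw [div_le_one (by positivity)]
        linarith
      have h5 : 0 ≤ η * ‖θ‖ ^ 2 := by positivity
      nlinarith
    exact h2
  have := hs θ
  linarith

end Pool.Agent.W12.KH
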